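import Pool.Agent.N939.ME.Stm3

/-!
# Project ME, part ME26: coefficients of `1 - sqrt (1 - x)` (helper271)
-/

set_option autoImplicit false

namespace Pool.Agent.N271.ME.DL

open Filter Topology Finset
open Pool.Agent.N939.ME

theorem coeff_zero (a : ℕ → ℝ) (h : ∀ x : ℝ, |x| < 1 → HasSum (fun n => a n * x ^ n) 0) :
    ∀ n, a n = 0 := by
  have hs : Summable (fun n => ‖a n‖ * (1 / 2 : ℝ) ^ n) := by
    have h1 := (h (1 / 2) (by rw [abs_of_pos] <;> norm_num)).summable.norm
    refine h1.congr fun n => ?_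
    rw [norm_mul, norm_pow]
    norm_num
  have hp : HasFPowerSeriesOnBall (fun _ : ℝ => (0 : ℝ))
      (FormalMultilinearSeries.ofScalars ℝ a) 0 ((1 / 2 : NNReal) : ENNReal) := by
    refine ⟨?_, ?_, ?_⟩
    · apply FormalMultilinearSeries.le_radius_of_summable_norm
      refine hs.congr fun n => ?_
      rw [FormalMultilinearSeries.ofScalars_norm]
      norm_num
    · norm_num
    · intro y hy
      have hy' : |y| < 1 := by
        have h2 : ‖y‖ < 1 / 2 := by
          have h3 := hy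
          rw [Metric.mem_eball, edist_zero_right] at h3
          have h4 : ‖y‖₊ < (1 / 2 : NNReal) := by exact_mod_cast h3
          have h5 : ((‖y‖₊ : NNReal) : ℝ) < ((1 / 2 : NNReal) : ℝ) := NNReal.coe_lt_coe.2 h4
          simpa using h5
        rw [Real.norm_eq_abs] at h2
        linarith
      have h6 := h y hy'
      have h7 : (fun n => (FormalMultilinearSeries.ofScalars ℝ a n) fun _ => y) =
          fun n => a n * y ^ n := by
        funext n
        rw [FormalMultilinearSeries.ofScalars_apply_eq, smul_eq_mul]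
      rw [h7]
      exact h6
  have h0 := hp.hasFPowerSeriesAt.eq_zero
  intro n
  have h1 : FormalMultilinearSeries.coeff (FormalMultilinearSeries.ofScalars ℝ a) n = 0 := by
    rw [h0]
    rfl
  rwa [FormalMultilinearSeries.coeff_ofScalars] at h1

/-- the coefficients of `sqrt (1 - x)` -/
def ee (δ : ℕ → ℝ) : ℕ → ℝ
  | 0 => 1
  | n + 1 => -δ n

/-- the coefficients of `1 - x` -/
def c1 : ℕ → ℝ
  | 0 => 1
  | 1 => -1
  | _ => 0

theorem hasSum_c1 (x : ℂ) : HasSum (fun n => (c1 n : ℂ) * x ^ n) (1 - x) := by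
  have h : ∀ n ∉ range 2, (c1 n : ℂ) * x ^ n = 0 := by
    intro n hn
    match n with
    | 0 => simp at hn
    | 1 => simp at hn
    | n + 2 => simp [c1]
  have h2 : HasSum (fun n => (c1 n : ℂ) * x ^ n) (∑ n ∈ range 2, (c1 n : ℂ) * x ^ n) :=
    hasSum_sum_of_ne_finset_zero h
  have h3 : ∑ n ∈ range 2, (c1 n : ℂ) * x ^ n = 1 - x := by
    rw [sum_range_succ, sum_range_one]
    simp [c1]
    ring
  rwa [h3] at h2

theorem hasSum_c1' (x : ℝ) : HasSum (fun n => c1 n * x ^ n) (1 - x) := by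
  have h := hasSum_c1 (x : ℂ)
  have h2 : HasSum (fun n => ((c1 n * x ^ n : ℝ) : ℂ)) ((1 - x : ℝ) : ℂ) := by
    push_cast
    exact h
  exact_mod_cast h2

theorem ee_hasSum {δ : ℕ → ℝ} (hδ : IsDl δ) {x : ℝ} (hx : |x| < 1) :
    HasSum (fun n => ee δ n * x ^ n) (Real.sqrt (1 - x)) := by
  have h := (hδ x hx).neg
  rw [← hasSum_nat_add_iff' 1]
  simp only [sum_range_one, ee, pow_zero, mul_one]
  convert h using 1
  · funext n; ring
  · ring

theorem conv {δ : ℕ → ℝ} (hδ : IsDl δ) (n : ℕ) :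
    ∑ p ∈ antidiagonal n, ee δ p.1 * ee δ p.2 = c1 n := by
  have key := coeff_zero (fun n => ∑ p ∈ antidiagonal n, ee δ p.1 * ee δ p.2 - c1 n) ?_ n
  · linarith
  · intro x hx
    have h1 := ee_hasSum hδ hx
    have h2 : Summable (fun n => ‖ee δ n * x ^ n‖) := h1.summable.norm
    have h3 := summable_norm_sum_mul_antidiagonal_of_summable_norm h2 h2
    have h4 := tsum_mul_tsum_eq_tsum_sum_antidiagonal_of_summable_norm h2 h2
    rw [h1.tsum_eq, Real.mul_self_sqrt (by linarith [(abs_lt.1 hx).2])] at h4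
    have h5 : HasSum (fun n => ∑ p ∈ antidiagonal n,
        ee δ p.1 * x ^ p.1 * (ee δ p.2 * x ^ p.2)) (1 - x) := by
      rw [h4]
      exact h3.of_norm.hasSum
    have h6 := h5.sub (hasSum_c1' x)
    rw [sub_self] at h6
    have h7 : (fun n => (∑ p ∈ antidiagonal n, ee δ p.1 * ee δ p.2 - c1 n) * x ^ n) =
        fun n => ∑ p ∈ antidiagonal n, ee δ p.1 * x ^ p.1 * (ee δ p.2 * x ^ p.2) -
          c1 n * x ^ n := by
      funext n
      rw [sub_mul, sum_mul]
      congr 1
      apply sum_congr rfl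
      intro p hp
      rw [← (mem_antidiagonal.1 hp), pow_add]
      ring
    rw [h7]
    exact h6

theorem rec0 {δ : ℕ → ℝ} (hδ : IsDl δ) : 2 * δ 0 = 1 := by
  have h := conv hδ 1
  rw [Finset.Nat.sum_antidiagonal_succ] at h
  simp [ee, c1] at h
  linarith

theorem rec1 {δ : ℕ → ℝ} (hδ : IsDl δ) (n : ℕ) :
    2 * δ (n + 1) = ∑ p ∈ antidiagonal n, δ p.1 * δ p.2 := by
  have h := conv hδ (n + 2)
  rw [Finset.Nat.sum_antidiagonal_succ, Finset.Nat.sum_antidiagonal_succ'] at h
  simp only [ee, c1, one_mul, mul_one, neg_mul_neg] at h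
  linarith

theorem nonneg {δ : ℕ → ℝ} (hδ : IsDl δ) : ∀ n, 0 ≤ δ n := by
  intro n
  induction n using Nat.strong_induction_on with
  | _ n ih =>
    match n with
    | 0 => linarith [rec0 hδ]
    | n + 1 =>
      have h := rec1 hδ n
      have h2 : 0 ≤ ∑ p ∈ antidiagonal n, δ p.1 * δ p.2 := by
        apply sum_nonneg
        intro p hp
        have h3 := mem_antidiagonal.1 hp
        exact mul_nonneg (ih _ (by omega)) (ih _ (by omega))
      linarith

theorem partial_le {δ : ℕ → ℝ} (hδ : IsDl δ) (N : ℕ) : ∑ n ∈ range N, δ n ≤ 1 := by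
  have h1 : ∀ x : ℝ, 0 < x → x < 1 → ∑ n ∈ range N, δ n * x ^ (n + 1) ≤ 1 := by
    intro x h0 h1
    have h2 := hδ x (by rw [abs_of_pos h0]; exact h1)
    have h3 := sum_le_hasSum (range N) (fun n _ => mul_nonneg (nonneg hδ n) (by positivity)) h2
    linarith [Real.sqrt_nonneg (1 - x)]
  have h2 : Tendsto (fun x : ℝ => ∑ n ∈ range N, δ n * x ^ (n + 1)) (𝓝[<] 1)
      (𝓝 (∑ n ∈ range N, δ n * 1 ^ (n + 1))) := by
    apply Tendsto.mono_left _ nhdsWithin_le_nhds
    exact (by fun_prop : Continuous fun x : ℝ => ∑ n ∈ range N, δ n * x ^ (n + 1)).tendsto 1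
  simp only [one_pow, mul_one] at h2
  refine le_of_tendsto h2 ?_
  have h3 : Set.Ioo (0 : ℝ) 1 ∈ 𝓝[<] (1 : ℝ) := Ioo_mem_nhdsLT one_pos
  filter_upwards [h3] with x hx
  exact h1 x hx.1 hx.2

theorem dl : S_DL := by
  intro δ hδ
  have hnn := nonneg hδ
  have hsum : Summable δ := summable_of_sum_range_le hnn (partial_le hδ)
  have hee : Summable (fun n => |ee δ n|) := by
    rw [← summable_nat_add_iff 1]
    refine hsum.congr fun n => ?_
    simp only [ee, abs_neg]
    rw [abs_of_nonneg (hnn n)]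
  have key : ∀ u : ℂ, ‖u‖ ≤ 1 → (1 - ∑' n, (δ n : ℂ) * u ^ (n + 1)) ^ 2 = 1 - u := by
    intro u hu
    have h1 : Summable (fun n => ‖(ee δ n : ℂ) * u ^ n‖) := by
      refine Summable.of_nonneg_of_le (fun n => norm_nonneg _) (fun n => ?_) hee
      rw [norm_mul, norm_pow, Complex.norm_real, Real.norm_eq_abs]
      exact mul_le_of_le_one_right (abs_nonneg _) (pow_le_one₀ (norm_nonneg _) hu)
    have h2 : ∑' n, (ee δ n : ℂ) * u ^ n = 1 - ∑' n, (δ n : ℂ) * u ^ (n + 1) := by
      rw [h1.of_norm.tsum_eq_zero_add]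
      simp only [ee, pow_zero, mul_one, Complex.ofReal_one, Complex.ofReal_neg, neg_mul]
      rw [tsum_neg]
      ring
    rw [← h2, sq, tsum_mul_tsum_eq_tsum_sum_antidiagonal_of_summable_norm h1 h1]
    have h3 : ∀ n, ∑ p ∈ antidiagonal n, (ee δ p.1 : ℂ) * u ^ p.1 * ((ee δ p.2 : ℂ) * u ^ p.2) =
        (c1 n : ℂ) * u ^ n := by
      intro n
      rw [← conv hδ n]
      push_cast
      rw [sum_mul]
      apply sum_congr rfl
      intro p hp
      rw [← (mem_antidiagonal.1 hp), pow_add]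
      ring
    rw [tsum_congr h3, (hasSum_c1 u).tsum_eq]
  refine ⟨hnn, hsum, ?_, key⟩
  have h1 := key 1 (by simp)
  simp only [one_pow, mul_one, sub_self] at h1
  have h2 := pow_eq_zero_iff (two_ne_zero) |>.1 h1
  have h3 : ((∑' n, δ n : ℝ) : ℂ) = 1 := by
    rw [Complex.ofReal_tsum]
    linear_combination -h2
  exact_mod_cast h3

end Pool.Agent.N271.ME.DL
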